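import Pool.Agent.H586.GLU.Stm

/-!
# Task GLU-EXP: expansion of the variation of the energy
-/

set_option autoImplicit false
set_option linter.unusedSectionVars false
set_option linter.unusedVariables false

open MeasureTheory Matrix Finset Filter Topology
open scoped Matrix.Norms.Frobenius

namespace Pool.Agent.H167.GLU

open Pool.Agent.N990 hiding CB CB_nonneg dd_le
open Pool.Agent.N109.Slab
open Pool.Agent.H586.GLU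

noncomputable section

variable {N D L : ℕ} {G : Subgroup (UU N)}

/-- the quadratic part of `Pq` -/
def kk (Y1 Y2 Y3 Y4 : Mt N) : Mt N := Y1 * Y2 - Y4 * Y3

/-- the linear part of the second slot -/
def ll (X Y1 Y2 Y3 Y4 : Mt N) (w1 w2 w3 w4 : ℝ) : Mt N :=
  w1 • (X * (Y1 + Y2)) + w2 • (Y1 * X + X * Y2) - w4 • (X * (Y4 + Y3)) - w3 • (Y4 * X + X * Y3)

/-- the quadratic part of the second slot -/
def cc (X Y1 Y2 Y3 Y4 : Mt N) (w1 w2 w3 w4 : ℝ) : Mt N :=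
  w1 • (X * Y1 * Y2) + w2 • (Y1 * X * Y2) - w4 • (X * Y4 * Y3) - w3 • (Y4 * X * Y3)

/-- the linear part of `Pq` -/
def dl4 (Y1 Y2 Y3 Y4 : Mt N) : Mt N := Y1 + Y2 - Y4 - Y3

lemma slot (X Y1 Y2 Y3 Y4 : Mt N) (w1 w2 w3 w4 : ℝ) :
    w1 • (X * (1 + Y1) * (1 + Y2)) + w2 • ((1 + Y1) * X * (1 + Y2)) -
      w4 • (X * (1 + Y4) * (1 + Y3)) - w3 • ((1 + Y4) * X * (1 + Y3)) =
    (w1 + w2 - w4 - w3) • X + ll X Y1 Y2 Y3 Y4 w1 w2 w3 w4 + cc X Y1 Y2 Y3 Y4 w1 w2 w3 w4 := by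
  unfold ll cc
  simp only [mul_add, add_mul, mul_one, one_mul, smul_add, sub_smul, add_smul]
  abel

lemma norm_kk {Y1 Y2 Y3 Y4 : Mt N} {m : ℝ} (hm : 0 ≤ m) (h1 : ‖Y1‖ ≤ m) (h2 : ‖Y2‖ ≤ m)
    (h3 : ‖Y3‖ ≤ m) (h4 : ‖Y4‖ ≤ m) : ‖kk Y1 Y2 Y3 Y4‖ ≤ 2 * m ^ 2 := by
  unfold kk
  refine (norm_sub_le _ _).trans ?_
  have a1 := (norm_mul_le Y1 Y2).trans (mul_le_mul h1 h2 (norm_nonneg _) hm)
  have a2 := (norm_mul_le Y4 Y3).trans (mul_le_mul h4 h3 (norm_nonneg _) hm)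
  nlinarith

lemma norm_dl4 {Y1 Y2 Y3 Y4 : Mt N} {m : ℝ} (h1 : ‖Y1‖ ≤ m) (h2 : ‖Y2‖ ≤ m)
    (h3 : ‖Y3‖ ≤ m) (h4 : ‖Y4‖ ≤ m) : ‖dl4 Y1 Y2 Y3 Y4‖ ≤ 4 * m := by
  unfold dl4
  have a1 := norm_sub_le (Y1 + Y2 - Y4) Y3
  have a2 := norm_sub_le (Y1 + Y2) Y4
  have a3 := norm_add_le Y1 Y2
  linarith

lemma norm_four {A B C E : Mt N} {w1 w2 w3 w4 s t : ℝ} (hs : 0 ≤ s) (ht : 0 ≤ t)
    (hA : ‖A‖ ≤ t) (hB : ‖B‖ ≤ t) (hC : ‖C‖ ≤ t) (hE : ‖E‖ ≤ t) (h1 : |w1| ≤ s) (h2 : |w2| ≤ s)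
    (h3 : |w3| ≤ s) (h4 : |w4| ≤ s) :
    ‖w1 • A + w2 • B - w4 • C - w3 • E‖ ≤ 4 * (s * t) := by
  have key : ∀ (w : ℝ) (M : Mt N), |w| ≤ s → ‖M‖ ≤ t → ‖w • M‖ ≤ s * t := by
    intro w M hw hM
    rw [norm_smul, Real.norm_eq_abs]
    exact mul_le_mul hw hM (norm_nonneg _) hs
  have a1 := norm_sub_le (w1 • A + w2 • B - w4 • C) (w3 • E)
  have a2 := norm_sub_le (w1 • A + w2 • B) (w4 • C)
  have a3 := norm_add_le (w1 • A) (w2 • B)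
  have b1 := key w1 A h1 hA
  have b2 := key w2 B h2 hB
  have b3 := key w4 C h4 hC
  have b4 := key w3 E h3 hE
  linarith

lemma norm_X_mul {X A : Mt N} {t : ℝ} (hX : ‖X‖ ≤ 1) (hA : ‖A‖ ≤ t) : ‖X * A‖ ≤ t := by
  have ht : 0 ≤ t := (norm_nonneg _).trans hA
  have := (norm_mul_le X A).trans (mul_le_mul hX hA (norm_nonneg _) zero_le_one)
  linarith

lemma norm_mul_X {X A : Mt N} {t : ℝ} (hX : ‖X‖ ≤ 1) (hA : ‖A‖ ≤ t) : ‖A * X‖ ≤ t := by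
  have ht : 0 ≤ t := (norm_nonneg _).trans hA
  have := (norm_mul_le A X).trans (mul_le_mul hA hX (norm_nonneg _) ht)
  linarith

lemma norm_ll {X Y1 Y2 Y3 Y4 : Mt N} {w1 w2 w3 w4 s m : ℝ} (hs : 0 ≤ s) (hm : 0 ≤ m)
    (hX : ‖X‖ ≤ 1) (h1 : ‖Y1‖ ≤ m) (h2 : ‖Y2‖ ≤ m) (h3 : ‖Y3‖ ≤ m) (h4 : ‖Y4‖ ≤ m)
    (g1 : |w1| ≤ s) (g2 : |w2| ≤ s) (g3 : |w3| ≤ s) (g4 : |w4| ≤ s) :
    ‖ll X Y1 Y2 Y3 Y4 w1 w2 w3 w4‖ ≤ 8 * (s * m) := by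
  unfold ll
  have e1 : ‖X * (Y1 + Y2)‖ ≤ 2 * m :=
    norm_X_mul hX ((norm_add_le _ _).trans (by linarith))
  have e2 : ‖Y1 * X + X * Y2‖ ≤ 2 * m :=
    (norm_add_le _ _).trans (by linarith [norm_mul_X hX h1, norm_X_mul hX h2])
  have e3 : ‖X * (Y4 + Y3)‖ ≤ 2 * m :=
    norm_X_mul hX ((norm_add_le _ _).trans (by linarith))
  have e4 : ‖Y4 * X + X * Y3‖ ≤ 2 * m :=
    (norm_add_le _ _).trans (by linarith [norm_mul_X hX h4, norm_X_mul hX h3])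
  have := norm_four hs (by linarith : 0 ≤ 2 * m) e1 e2 e3 e4 g1 g2 g3 g4
  linarith

lemma norm_cc {X Y1 Y2 Y3 Y4 : Mt N} {w1 w2 w3 w4 s m : ℝ} (hs : 0 ≤ s) (hm : 0 ≤ m)
    (hX : ‖X‖ ≤ 1) (h1 : ‖Y1‖ ≤ m) (h2 : ‖Y2‖ ≤ m) (h3 : ‖Y3‖ ≤ m) (h4 : ‖Y4‖ ≤ m)
    (g1 : |w1| ≤ s) (g2 : |w2| ≤ s) (g3 : |w3| ≤ s) (g4 : |w4| ≤ s) :
    ‖cc X Y1 Y2 Y3 Y4 w1 w2 w3 w4‖ ≤ 4 * (s * m ^ 2) := by
  unfold cc
  have key : ∀ A B : Mt N, ‖A‖ ≤ m → ‖B‖ ≤ m → ‖A * B‖ ≤ m ^ 2 := by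
    intro A B hA hB
    have := (norm_mul_le A B).trans (mul_le_mul hA hB (norm_nonneg _) hm)
    rw [sq]
    exact this
  have e1 : ‖X * Y1 * Y2‖ ≤ m ^ 2 := key _ _ (norm_X_mul hX h1) h2
  have e2 : ‖Y1 * X * Y2‖ ≤ m ^ 2 := key _ _ (norm_mul_X hX h1) h2
  have e3 : ‖X * Y4 * Y3‖ ≤ m ^ 2 := key _ _ (norm_X_mul hX h4) h3
  have e4 : ‖Y4 * X * Y3‖ ≤ m ^ 2 := key _ _ (norm_mul_X hX h4) h3
  exact norm_four hs (sq_nonneg m) e1 e2 e3 e4 g1 g2 g3 g4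

/-- the remainder of one plaquette -/
def rp (X Y1 Y2 Y3 Y4 : Mt N) (w1 w2 w3 w4 : ℝ) : ℝ :=
  ip (kk Y1 Y2 Y3 Y4) (ll X Y1 Y2 Y3 Y4 w1 w2 w3 w4) +
    ip (dl4 Y1 Y2 Y3 Y4) (cc X Y1 Y2 Y3 Y4 w1 w2 w3 w4) +
    ip (kk Y1 Y2 Y3 Y4) (cc X Y1 Y2 Y3 Y4 w1 w2 w3 w4)

lemma rp_le {X Y1 Y2 Y3 Y4 : Mt N} {w1 w2 w3 w4 s m : ℝ} (hs : 1 ≤ s) (hm : 0 ≤ m)
    (hm2 : m ≤ 2 * s)
    (hX : ‖X‖ ≤ 1) (h1 : ‖Y1‖ ≤ m) (h2 : ‖Y2‖ ≤ m) (h3 : ‖Y3‖ ≤ m) (h4 : ‖Y4‖ ≤ m)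
    (g1 : |w1| ≤ s) (g2 : |w2| ≤ s) (g3 : |w3| ≤ s) (g4 : |w4| ≤ s) :
    |rp X Y1 Y2 Y3 Y4 w1 w2 w3 w4| ≤ 48 * s ^ 2 * m ^ 3 := by
  have hs0 : 0 ≤ s := by linarith
  have nk := norm_kk hm h1 h2 h3 h4
  have nd := norm_dl4 h1 h2 h3 h4
  have nl := norm_ll hs0 hm hX h1 h2 h3 h4 g1 g2 g3 g4
  have nc := norm_cc hs0 hm hX h1 h2 h3 h4 g1 g2 g3 g4
  have a1 := (ip_le (kk Y1 Y2 Y3 Y4) (ll X Y1 Y2 Y3 Y4 w1 w2 w3 w4)).trans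
    (mul_le_mul nk nl (norm_nonneg _) (by positivity))
  have a2 := (ip_le (dl4 Y1 Y2 Y3 Y4) (cc X Y1 Y2 Y3 Y4 w1 w2 w3 w4)).trans
    (mul_le_mul nd nc (norm_nonneg _) (by positivity))
  have a3 := (ip_le (kk Y1 Y2 Y3 Y4) (cc X Y1 Y2 Y3 Y4 w1 w2 w3 w4)).trans
    (mul_le_mul nk nc (norm_nonneg _) (by positivity))
  unfold rp
  refine (abs_add_three _ _ _).trans ?_
  have hm3 : 0 ≤ m ^ 3 := by positivity
  have b1 : 2 * m ^ 2 * (8 * (s * m)) ≤ 16 * (s ^ 2 * m ^ 3) := by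
    have : 2 * m ^ 2 * (8 * (s * m)) = 16 * (s * m ^ 3) := by ring
    rw [this]
    have : s * m ^ 3 ≤ s ^ 2 * m ^ 3 := mul_le_mul_of_nonneg_right (by nlinarith) hm3
    linarith
  have b2 : 4 * m * (4 * (s * m ^ 2)) ≤ 16 * (s ^ 2 * m ^ 3) := by
    have : 4 * m * (4 * (s * m ^ 2)) = 16 * (s * m ^ 3) := by ring
    rw [this]
    have : s * m ^ 3 ≤ s ^ 2 * m ^ 3 := mul_le_mul_of_nonneg_right (by nlinarith) hm3
    linarith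
  have b3 : 2 * m ^ 2 * (4 * (s * m ^ 2)) ≤ 16 * (s ^ 2 * m ^ 3) := by
    have : 2 * m ^ 2 * (4 * (s * m ^ 2)) = 8 * (s * m ^ 3) * m := by ring
    rw [this]
    have h0 : 0 ≤ 8 * (s * m ^ 3) := by positivity
    have := mul_le_mul_of_nonneg_left hm2 h0
    have e : 8 * (s * m ^ 3) * (2 * s) = 16 * (s ^ 2 * m ^ 3) := by ring
    linarith
  have e : 48 * s ^ 2 * m ^ 3 = 48 * (s ^ 2 * m ^ 3) := by ring
  rw [e]
  linarith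

/-- the vertical terms -/
lemma vert (ω : SF D L) (X : Mt N) (σ : Cf G D L) (x : Site D) (a : Lab D L) :
    ip (dv (Yf σ) x a) (dv (fun y b => ω y b • (X * mt (σ y b))) x a) =
      dv ω x a * ip X (dv (Yf σ) x a) +
        ip (dv (Yf σ) x a) (dv (fun y b => ω y b • (X * Yf σ y b)) x a) := by
  have h1 : (fun y b => ω y b • (X * mt (σ y b)) : MF N D L) =
      (fun y b => ω y b • X) + (fun y b => ω y b • (X * Yf σ y b)) := by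
    funext y b
    simp only [Pi.add_apply]
    rw [← smul_add]
    congr 1
    unfold Yf
    noncomm_ring
  have h2 := dv_add' (fun y b => ω y b • X : MF N D L) (fun y b => ω y b • (X * Yf σ y b)) x a
  rw [h1, h2, dv_smulX, ip_add_right, ip_smul_right, ip_comm (dv (Yf σ) x a) X]

/-- one plaquette -/
lemma plaq (X Y1 Y2 Y3 Y4 : Mt N) (w1 w2 w3 w4 : ℝ) :
    ip (dl4 Y1 Y2 Y3 Y4 + kk Y1 Y2 Y3 Y4)
      ((w1 + w2 - w4 - w3) • X + ll X Y1 Y2 Y3 Y4 w1 w2 w3 w4 + cc X Y1 Y2 Y3 Y4 w1 w2 w3 w4) =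
    (w1 + w2 - w4 - w3) * ip X (dl4 Y1 Y2 Y3 Y4) +
      ((w1 + w2 - w4 - w3) * ip (kk Y1 Y2 Y3 Y4) X +
        ip (dl4 Y1 Y2 Y3 Y4) (ll X Y1 Y2 Y3 Y4 w1 w2 w3 w4)) +
      rp X Y1 Y2 Y3 Y4 w1 w2 w3 w4 := by
  unfold rp
  simp only [ip_add_left, ip_add_right, ip_smul_right]
  rw [ip_comm (dl4 Y1 Y2 Y3 Y4) X]
  ring

/-- the remainder of the plaquette `p` at the site `x` -/
def rx (ω : SF D L) (X : Mt N) (σ : Cf G D L) (x : Site D) (p : (Fin D × Fin D) × Fin L) : ℝ :=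
  rp X (Yf σ x (p.1.1, p.2)) (Yf σ (x + ev p.1.1) (p.1.2, p.2))
    (Yf σ (x + ev p.1.2) (p.1.1, p.2)) (Yf σ x (p.1.2, p.2))
    (ω x (p.1.1, p.2)) (ω (x + ev p.1.1) (p.1.2, p.2))
    (ω (x + ev p.1.2) (p.1.1, p.2)) (ω x (p.1.2, p.2))

lemma site (ω : SF D L) (X : Mt N) (σ : Cf G D L) (x : Site D) :
    dh ω X σ x - bx ω (fun y b => ip X (Yf σ y b)) x - qx ω X (Yf σ) (Yf σ) x =
      ∑ p ∈ plabs D L, rx ω X σ x p := by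
  have hb : bx ω (fun y b => ip X (Yf σ y b)) x =
      ∑ a, dv ω x a * ip X (dv (Yf σ) x a) +
        ∑ p ∈ plabs D L, dp ω x p * ip X (dp (Yf σ) x p) := by
    have : bx ω (fun y b => ip X (Yf σ y b)) x = bx ω (sc X σ) x := rfl
    rw [this]
    unfold bx
    simp only [dv_sc, dp_sc, smul_eq_mul]
  have hp : ∀ p : (Fin D × Fin D) × Fin L, ip (Pq σ x p) (
      ω x (p.1.1, p.2) • (X * mt (σ x (p.1.1, p.2)) * mt (σ (x + ev p.1.1) (p.1.2, p.2))) +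
      ω (x + ev p.1.1) (p.1.2, p.2) •
        (mt (σ x (p.1.1, p.2)) * X * mt (σ (x + ev p.1.1) (p.1.2, p.2))) -
      ω x (p.1.2, p.2) • (X * mt (σ x (p.1.2, p.2)) * mt (σ (x + ev p.1.2) (p.1.1, p.2))) -
      ω (x + ev p.1.2) (p.1.1, p.2) •
        (mt (σ x (p.1.2, p.2)) * X * mt (σ (x + ev p.1.2) (p.1.1, p.2)))) =
      dp ω x p * ip X (dp (Yf σ) x p) +
      (dp ω x p * ip (Yf σ x (p.1.1, p.2) * Yf σ (x + ev p.1.1) (p.1.2, p.2) -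
        Yf σ x (p.1.2, p.2) * Yf σ (x + ev p.1.2) (p.1.1, p.2)) X +
      ip (dp (Yf σ) x p) (
      ω x (p.1.1, p.2) • (X * (Yf σ x (p.1.1, p.2) + Yf σ (x + ev p.1.1) (p.1.2, p.2))) +
      ω (x + ev p.1.1) (p.1.2, p.2) •
        (Yf σ x (p.1.1, p.2) * X + X * Yf σ (x + ev p.1.1) (p.1.2, p.2)) -
      ω x (p.1.2, p.2) • (X * (Yf σ x (p.1.2, p.2) + Yf σ (x + ev p.1.2) (p.1.1, p.2))) -
      ω (x + ev p.1.2) (p.1.1, p.2) •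
        (Yf σ x (p.1.2, p.2) * X + X * Yf σ (x + ev p.1.2) (p.1.1, p.2)))) + rx ω X σ x p := by
    intro p
    have e1 : ∀ y b, mt (σ y b) = 1 + Yf σ y b := by
      intro y b
      unfold Yf
      abel
    rw [Pq_eq]
    simp only [e1]
    rw [slot]
    exact plaq X (Yf σ x (p.1.1, p.2)) (Yf σ (x + ev p.1.1) (p.1.2, p.2))
      (Yf σ (x + ev p.1.2) (p.1.1, p.2)) (Yf σ x (p.1.2, p.2))
      (ω x (p.1.1, p.2)) (ω (x + ev p.1.1) (p.1.2, p.2))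
      (ω (x + ev p.1.2) (p.1.1, p.2)) (ω x (p.1.2, p.2))
  unfold dh qx
  rw [hb]
  simp only [vert, hp]
  simp only [Finset.sum_add_distrib]
  ring

theorem expand : S_EXP := by
  intro N D L G V ω X σ s hs hD hL hN hV hω hX
  have hs0 : 0 ≤ s := by linarith
  set m : ℝ := nu (clA V) (Yf σ) with hmdef
  have hm0 : 0 ≤ m := nu_nonneg _ _
  have hm2 : m ≤ 2 * s := by
    refine nu_le (by linarith) fun x _ a => ?_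
    exact (Yf_le σ x a).trans (by linarith)
  have hsite : ∀ x ∈ Ns V, |∑ p ∈ plabs D L, rx ω X σ x p| ≤ s ^ 3 * (48 * s ^ 2 * m ^ 3) := by
    intro x hx
    have hx1 : x ∈ clA V := Ns_clA V hx
    have hx2 : ∀ i, x + ev i ∈ clA V := fun i => mem_clA.2 (Or.inr ⟨i, x, hx, rfl⟩)
    have hcard : ((plabs D L).card : ℝ) ≤ s ^ 3 := by
      have h1 : (plabs D L).card ≤ D * D * L := by
        refine (Finset.card_le_univ _).trans ?_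
        rw [Fintype.card_prod, Fintype.card_prod, Fintype.card_fin, Fintype.card_fin]
      have h2 : ((plabs D L).card : ℝ) ≤ (D : ℝ) * D * L := by exact_mod_cast h1
      have hD0 : (0 : ℝ) ≤ D := Nat.cast_nonneg _
      have hL0 : (0 : ℝ) ≤ L := Nat.cast_nonneg _
      have h3 : (D : ℝ) * D ≤ s * s := mul_le_mul hD hD hD0 hs0
      have h4 : (D : ℝ) * D * L ≤ s * s * s := mul_le_mul h3 hL hL0 (by positivity)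
      calc ((plabs D L).card : ℝ) ≤ s * s * s := h2.trans h4
        _ = s ^ 3 := by ring
    calc |∑ p ∈ plabs D L, rx ω X σ x p| ≤ ∑ p ∈ plabs D L, |rx ω X σ x p| :=
          Finset.abs_sum_le_sum_abs _ _
      _ ≤ ∑ p ∈ plabs D L, 48 * s ^ 2 * m ^ 3 := by
          refine Finset.sum_le_sum fun p _ => ?_
          unfold rx
          exact rp_le hs hm0 hm2 hX (le_nu _ hx1 _) (le_nu _ (hx2 _) _) (le_nu _ (hx2 _) _)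
            (le_nu _ hx1 _) (hω _ _) (hω _ _) (hω _ _) (hω _ _)
      _ = (plabs D L).card * (48 * s ^ 2 * m ^ 3) := by
          rw [Finset.sum_const, nsmul_eq_mul]
      _ ≤ s ^ 3 * (48 * s ^ 2 * m ^ 3) :=
          mul_le_mul_of_nonneg_right hcard (by positivity)
  have hNs : ((Ns V).card : ℝ) ≤ 2 * s ^ 2 := by
    have h1 : ((Ns V).card : ℝ) ≤ ((D : ℝ) + 1) * V.card := by exact_mod_cast Ns_card V
    have hV0 : (0 : ℝ) ≤ V.card := Nat.cast_nonneg _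
    have h2 : ((D : ℝ) + 1) * V.card ≤ (s + 1) * s :=
      mul_le_mul (by linarith) hV hV0 (by linarith)
    nlinarith
  have heq : ∑ x ∈ Ns V, dh ω X σ x - BL V ω X (Yf σ) - QL V ω X (Yf σ) (Yf σ) =
      ∑ x ∈ Ns V, ∑ p ∈ plabs D L, rx ω X σ x p := by
    have hBL : BL V ω X (Yf σ) = ∑ x ∈ Ns V, bx ω (fun y b => ip X (Yf σ y b)) x := rfl
    rw [hBL, QL_apply, ← Finset.sum_sub_distrib, ← Finset.sum_sub_distrib]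
    exact Finset.sum_congr rfl fun x _ => site ω X σ x
  rw [heq]
  calc |∑ x ∈ Ns V, ∑ p ∈ plabs D L, rx ω X σ x p|
      ≤ ∑ x ∈ Ns V, |∑ p ∈ plabs D L, rx ω X σ x p| := Finset.abs_sum_le_sum_abs _ _
    _ ≤ ∑ x ∈ Ns V, s ^ 3 * (48 * s ^ 2 * m ^ 3) := Finset.sum_le_sum hsite
    _ = (Ns V).card * (s ^ 3 * (48 * s ^ 2 * m ^ 3)) := by
        rw [Finset.sum_const, nsmul_eq_mul]
    _ ≤ 2 * s ^ 2 * (s ^ 3 * (48 * s ^ 2 * m ^ 3)) :=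
        mul_le_mul_of_nonneg_right hNs (by positivity)
    _ = 96 * s ^ 7 * m ^ 3 := by ring
    _ ≤ 100 * s ^ 7 * m ^ 3 := by
        have : 0 ≤ s ^ 7 * m ^ 3 := by positivity
        nlinarith

end

end Pool.Agent.H167.GLU
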